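import Pool.Agent.Helper7.AS.Sep

/-!
# André's supercharacter theory is the coarsest one containing the single-box characters

For every finite field `F` and every `n`, the coarsest supercharacter theory of the group `U_n(F)`
of upper unitriangular matrices in which all single-box supercharacters are irreducible
characters (form one-element blocks) is André's supercharacter theory.

Definitions used:
* `UT n F` is the group `U = U_n(F)` of upper unitriangular matrices, `nil n F` the space `𝔫` of
  strictly upper triangular matrices, `sub1 g = g - 1`, `act u v y = u y v`;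
* `IsIrrChar χ`: `χ` is the character of an irreducible complex representation;
* `sigma A = ∑_{χ ∈ A} χ(1) χ`;
* `IsSCT G X K`: `(X, K)` is a supercharacter theory of `G`;
* `superclass x = {g | g - 1 ∈ U (x - 1) U}` and `andreK n F` is the set of all these;
* `dualOrbit lam` is the two-sided orbit `U λ U` of the functional `λ` on `𝔫`,
  `orbitSum θ lam g = ∑_{μ ∈ U λ U} θ(μ(g - 1))`, `constituents θ lam` is the set of irreducible
  constituents of `orbitSum θ lam`, and `andreX n F θ` is the set of all these;
* `boxFun i j a` is the functional `y ↦ a y_{ij}` and `boxChar θ i j a` is the orbit sum of this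
  functional divided by `q^{j - i - 1}`, `q = |F|`.
-/

open scoped BigOperators Classical

namespace Pool.Agent.Results.MP_1f99fc_al.AndreCoarsest

open Pool.Agent.Helper7.AS
open Pool.Agent.Helper884.IC (IsIrrChar)

/-- Let `F` be a finite field, `θ` a nontrivial additive character of `F` and `U = U_n(F)`.
André's pair `(andreX, andreK)` is a supercharacter theory of `U`, its supercharacters are the
orbit sums, it has the blocks `{χ}`, `χ` a single-box supercharacter, and every supercharacter
theory `(X, K)` of `U` with all these blocks is finer than André's: every block of `K` is contained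
in a superclass of André's theory and every block of `X` is contained in a block of `andreX`. -/
theorem result (n : ℕ) (F : Type) [Field F] [Fintype F] (θ : AddChar F ℂ) (hθ : θ ≠ 1) :
    IsSCT (UT n F) (andreX n F θ) (andreK n F) ∧
    (∀ lam : Module.Dual F (nil n F), sigma (constituents θ lam) = orbitSum θ lam) ∧
    (∀ (i j : Fin n) (a : F), i < j → a ≠ 0 →
      IsIrrChar (boxChar θ i j a : UT n F → ℂ) ∧ {boxChar θ i j a} ∈ andreX n F θ) ∧
    ∀ (X : Set (Set (UT n F → ℂ))) (K : Set (Set (UT n F))), IsSCT (UT n F) X K →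
      (∀ (i j : Fin n) (a : F), i < j → a ≠ 0 → {boxChar θ i j a} ∈ X) →
      (∀ k ∈ K, ∃ k' ∈ andreK n F, k ⊆ k') ∧ (∀ A ∈ X, ∃ A' ∈ andreX n F θ, A ⊆ A') := by
  refine ⟨andre_isSCT hθ, sigma_constituents hθ, fun i j a hij ha =>
    ⟨boxChar_irr hθ hij ha, boxFun i j a, (constituents_box hθ hij ha).symm⟩, ?_⟩
  intro X K h hbox
  have hK : ∀ k ∈ K, ∃ k' ∈ andreK n F, k ⊆ k' := by
    intro k hk
    obtain ⟨g, hg⟩ := Set.nonempty_iff_ne_empty.2 fun h' => h.part.1 (h' ▸ hk)
    refine ⟨superclass g, ⟨g, rfl⟩, fun g' hg' => separation hθ fun i j a hij ha => ?_⟩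
    have h1 := h.const _ (hbox i j a hij ha) k hk g hg g' hg'
    unfold sigma at h1
    rw [finsum_mem_singleton, finsum_mem_singleton] at h1
    exact mul_left_cancel₀ (char_one_ne (boxChar_irr hθ hij ha)) h1
  refine ⟨hK, ?_⟩
  intro A hA
  obtain ⟨χ, hχ⟩ := h.nonempty A hA
  obtain ⟨A', ⟨⟨lam, rfl⟩, hχ'⟩, -⟩ := (andre_isSCT (n := n) hθ).cover χ (h.irr A hA χ hχ)
  refine ⟨constituents θ lam, ⟨lam, rfl⟩, fun ψ hψ => ?_⟩
  have hconst : orbitSum θ lam ∈ constOn K := by
    intro k hk g hg g' hg'
    obtain ⟨k', hk', hsub⟩ := hK k hk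
    exact orbitSum_const lam k' hk' g (hsub hg) g' (hsub hg')
  have h1 := h.prop hconst hA hχ hψ
  rw [mem_constituents] at hχ' ⊢
  refine ⟨h.irr A hA ψ hψ, fun h2 => ?_⟩
  rw [h2, zero_mul] at h1
  exact mul_ne_zero hχ'.2 (char_one_ne (h.irr A hA ψ hψ)) h1

end Pool.Agent.Results.MP_1f99fc_al.AndreCoarsest
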